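import Pool.Agent.helper84.ZD.SpecA

set_option autoImplicit false

open Complex MeasureTheory

namespace Pool.Agent.ZD

open Pool.Agent.helper84.DM Pool.Agent.helper78.ED Pool.Agent.DH

theorem AL2_rho_cont (W : Finset ℝ) : Continuous (rho W) := by
  unfold rho
  fun_prop

theorem AL2_f_cont (W : Finset ℝ) : Continuous (fun a : ℝ => ‖rho W a‖ ^ (3 / 2 : ℝ)) := by
  apply Continuous.rpow_const (AL2_rho_cont W).norm
  intro x
  right
  norm_num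

theorem AL2_kap_cont : Continuous kap := by
  unfold kap
  apply Continuous.div continuous_const (by fun_prop)
  intro x
  positivity

theorem AL2_sumexp (X : ℝ) (hX : 1 ≤ X) :
    Summable (fun j : ℤ => Real.exp (-(|(j : ℝ)| / X))) := by
  have hX0 : 0 < X := by linarith
  have hn : Summable (fun n : ℕ => Real.exp (-((n : ℝ) / X))) := by
    have h1 : (fun n : ℕ => Real.exp (-((n : ℝ) / X))) = fun n : ℕ => (Real.exp (-(1 / X))) ^ n := by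
      funext n
      rw [← Real.exp_nat_mul]
      congr 1
      ring
    rw [h1]
    apply summable_geometric_of_lt_one (Real.exp_pos _).le
    have h2 : 0 < 1 / X := by positivity
    calc Real.exp (-(1 / X)) < Real.exp 0 := Real.exp_lt_exp.mpr (by linarith)
      _ = 1 := Real.exp_zero
  apply Summable.of_nat_of_neg
  · simpa using hn
  · simpa using hn

theorem AL2_PK_cont (X : ℝ) (hX : 1 ≤ X) : Continuous (PK X) := by
  unfold PK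
  apply continuous_tsum (u := fun j : ℤ => Real.exp (-(|(j : ℝ)| / X)))
  · intro j
    fun_prop
  · exact AL2_sumexp X hX
  · intro j x
    rw [norm_mul, Real.norm_eq_abs, abs_of_pos (Real.exp_pos _)]
    exact mul_le_of_le_one_right (Real.exp_pos _).le
      (by rw [Real.norm_eq_abs]; exact Real.abs_cos_le_one _)

theorem AL2_gen (G : ℝ → ℝ → ℝ) (hG : Continuous (Function.uncurry G)) :
    (∀ a, Continuous (G a)) ∧ Continuous (fun a : ℝ => ∫ b in (-5 : ℝ)..5, G a b) := by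
  refine ⟨fun a => ?_, ?_⟩
  · exact hG.comp (Continuous.prodMk continuous_const continuous_id)
  · exact intervalIntegral.continuous_parametric_intervalIntegral_of_continuous' hG (-5) 5

theorem AL2_dbl {ι : Type*} (S : Finset ι) (G : ι → ℝ → ℝ → ℝ) (P : ℝ → ℝ → ℝ) (c : ℝ)
    (hG : ∀ i, Continuous (Function.uncurry (G i))) (hP : Continuous (Function.uncurry P))
    (h : ∀ a b, ∑ i ∈ S, G i a b ≤ c * P a b) :
    ∑ i ∈ S, ∫ a in (-5 : ℝ)..5, ∫ b in (-5 : ℝ)..5, G i a b ≤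
      c * ∫ a in (-5 : ℝ)..5, ∫ b in (-5 : ℝ)..5, P a b := by
  rw [← intervalIntegral.integral_finsetSum
    (fun i _ => ((AL2_gen (G i) (hG i)).2).intervalIntegrable _ _),
    ← intervalIntegral.integral_const_mul]
  apply intervalIntegral.integral_mono (by norm_num)
  · exact (continuous_finsetSum _ (fun i _ => (AL2_gen (G i) (hG i)).2)).intervalIntegrable _ _
  · exact (continuous_const.mul (AL2_gen P hP).2).intervalIntegrable _ _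
  · intro a
    show ∑ i ∈ S, ∫ b in (-5 : ℝ)..5, G i a b ≤ c * ∫ b in (-5 : ℝ)..5, P a b
    rw [← intervalIntegral.integral_finsetSum
      (fun i _ => ((AL2_gen (G i) (hG i)).1 a).intervalIntegrable _ _),
      ← intervalIntegral.integral_const_mul]
    apply intervalIntegral.integral_mono (by norm_num)
    · exact (continuous_finsetSum _
        (fun i _ => (AL2_gen (G i) (hG i)).1 a)).intervalIntegrable _ _
    · exact (continuous_const.mul ((AL2_gen P hP).1 a)).intervalIntegrable _ _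
    · intro b
      exact h a b

theorem AL2_JJsum (Cs : ℝ)
    (h : ∀ (X α : ℝ) (S : Finset ℤ), 1 ≤ X → ∑ m ∈ S, kap (X * ((m : ℝ) + α)) ≤ Cs / X * PK X α)
    (W : Finset ℝ) (X : ℝ) (hX : 1 ≤ X) (M : ℕ) (m₁ m₂ : ℤ) :
    ∑ m₃ ∈ MM M, JJ W X m₁ m₂ m₃ ≤ Cs / X * ∫ a in (-5 : ℝ)..5, ∫ b in (-5 : ℝ)..5,
      ‖rho W a‖ ^ (3 / 2 : ℝ) * ‖rho W b‖ ^ (3 / 2 : ℝ) *
        PK X ((m₁ : ℝ) * Real.exp a + (m₂ : ℝ) * Real.exp b) := by
  have hf := AL2_f_cont W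
  have hk := AL2_kap_cont
  have hp := AL2_PK_cont X hX
  have hf1 : Continuous (fun q : ℝ × ℝ => ‖rho W q.1‖ ^ (3 / 2 : ℝ)) := hf.comp continuous_fst
  have hf2 : Continuous (fun q : ℝ × ℝ => ‖rho W q.2‖ ^ (3 / 2 : ℝ)) := hf.comp continuous_snd
  have hG : ∀ m₃ : ℤ, Continuous (Function.uncurry (fun a b : ℝ =>
      ‖rho W a‖ ^ (3 / 2 : ℝ) * ‖rho W b‖ ^ (3 / 2 : ℝ) *
        kap (X * ((m₁ : ℝ) * Real.exp a + (m₂ : ℝ) * Real.exp b + m₃)))) := by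
    intro m₃
    have h3 : Continuous (fun q : ℝ × ℝ =>
      kap (X * ((m₁ : ℝ) * Real.exp q.1 + (m₂ : ℝ) * Real.exp q.2 + m₃))) :=
      hk.comp (g := kap)
        (f := fun q : ℝ × ℝ => X * ((m₁ : ℝ) * Real.exp q.1 + (m₂ : ℝ) * Real.exp q.2 + m₃))
        (by fun_prop)
    exact (hf1.mul hf2).mul h3
  have hP : Continuous (Function.uncurry (fun a b : ℝ =>
      ‖rho W a‖ ^ (3 / 2 : ℝ) * ‖rho W b‖ ^ (3 / 2 : ℝ) *
        PK X ((m₁ : ℝ) * Real.exp a + (m₂ : ℝ) * Real.exp b))) := by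
    have h3 : Continuous (fun q : ℝ × ℝ =>
      PK X ((m₁ : ℝ) * Real.exp q.1 + (m₂ : ℝ) * Real.exp q.2)) :=
      hp.comp (g := PK X)
        (f := fun q : ℝ × ℝ => (m₁ : ℝ) * Real.exp q.1 + (m₂ : ℝ) * Real.exp q.2)
        (by fun_prop)
    exact (hf1.mul hf2).mul h3
  unfold JJ
  refine AL2_dbl (MM M) (fun m₃ a b => ‖rho W a‖ ^ (3 / 2 : ℝ) * ‖rho W b‖ ^ (3 / 2 : ℝ) *
        kap (X * ((m₁ : ℝ) * Real.exp a + (m₂ : ℝ) * Real.exp b + m₃)))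
    (fun a b => ‖rho W a‖ ^ (3 / 2 : ℝ) * ‖rho W b‖ ^ (3 / 2 : ℝ) *
        PK X ((m₁ : ℝ) * Real.exp a + (m₂ : ℝ) * Real.exp b)) (Cs / X) hG hP ?_
  intro a b
  show ∑ m₃ ∈ MM M, ‖rho W a‖ ^ (3 / 2 : ℝ) * ‖rho W b‖ ^ (3 / 2 : ℝ) *
    kap (X * ((m₁ : ℝ) * Real.exp a + (m₂ : ℝ) * Real.exp b + m₃)) ≤ Cs / X *
    (‖rho W a‖ ^ (3 / 2 : ℝ) * ‖rho W b‖ ^ (3 / 2 : ℝ) *
    PK X ((m₁ : ℝ) * Real.exp a + (m₂ : ℝ) * Real.exp b))
  rw [← Finset.mul_sum]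
  have h2 := h X ((m₁ : ℝ) * Real.exp a + (m₂ : ℝ) * Real.exp b) (MM M) hX
  have h3 : ∑ m₃ ∈ MM M, kap (X * ((m₁ : ℝ) * Real.exp a + (m₂ : ℝ) * Real.exp b + m₃)) =
      ∑ m₃ ∈ MM M, kap (X * ((m₃ : ℝ) + ((m₁ : ℝ) * Real.exp a + (m₂ : ℝ) * Real.exp b))) := by
    apply Finset.sum_congr rfl
    intro m _
    congr 1
    ring
  rw [h3]
  have h4 : 0 ≤ ‖rho W a‖ ^ (3 / 2 : ℝ) * ‖rho W b‖ ^ (3 / 2 : ℝ) := by positivity
  have h5 := mul_le_mul_of_nonneg_left h2 h4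
  linarith

theorem AL2_MMcard (M : ℕ) : (MM M).card = 2 * M := by
  unfold MM
  rw [Finset.card_erase_of_mem (by simp), Int.card_Icc]
  omega

theorem AL2_pt (x K : ℝ) (hx : 0 ≤ x) (hK : 1 ≤ K) :
    x ^ (3 / 2 : ℝ) ≤ (3 / 4) * x ^ 2 / K ^ (1 / 4 : ℝ) + (1 / 4) * (K ^ (1 / 4 : ℝ)) ^ 3 := by
  have ht : 0 < K ^ (1 / 4 : ℝ) := by positivity
  set t := K ^ (1 / 4 : ℝ)
  have hs : x ^ (3 / 2 : ℝ) = (Real.sqrt x) ^ 3 := by
    rw [Real.sqrt_eq_rpow, ← Real.rpow_natCast, ← Real.rpow_mul hx]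
    norm_num
  have hs2 : x ^ 2 = (Real.sqrt x) ^ 4 := by
    have := Real.sq_sqrt hx
    calc x ^ 2 = ((Real.sqrt x) ^ 2) ^ 2 := by rw [this]
      _ = (Real.sqrt x) ^ 4 := by ring
  rw [hs, hs2]
  have hs0 : 0 ≤ Real.sqrt x := Real.sqrt_nonneg x
  set s := Real.sqrt x
  have key : 4 * s ^ 3 * t ≤ 3 * s ^ 4 + t ^ 4 := by
    have : 3 * s ^ 4 + t ^ 4 - 4 * s ^ 3 * t = (s - t) ^ 2 * (3 * s ^ 2 + 2 * s * t + t ^ 2) := by ring
    have h2 : 0 ≤ (s - t) ^ 2 * (3 * s ^ 2 + 2 * s * t + t ^ 2) := by positivity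
    linarith
  have e : 3 / 4 * s ^ 4 / t + 1 / 4 * t ^ 3 = (3 * s ^ 4 + t ^ 4) / (4 * t) := by
    field_simp
  rw [e, le_div_iff₀ (by positivity)]
  linarith

theorem AL2_intf (Cq : ℝ) (W : Finset ℝ) (hW : 1 ≤ W.card)
    (hq : ∫ x in (-5 : ℝ)..5, ‖rho W x‖ ^ 2 ≤ Cq * (W.card : ℝ)) :
    ∫ a in (-5 : ℝ)..5, ‖rho W a‖ ^ (3 / 2 : ℝ) ≤
      ((3 / 4) * Cq + 5 / 2) * ((W.card : ℝ) ^ (1 / 4 : ℝ)) ^ 3 := by
  have hK : (1 : ℝ) ≤ (W.card : ℝ) := by exact_mod_cast hW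
  have ht : 0 < (W.card : ℝ) ^ (1 / 4 : ℝ) := by positivity
  have ht4 : (W.card : ℝ) = ((W.card : ℝ) ^ (1 / 4 : ℝ)) ^ 4 := by
    rw [← Real.rpow_natCast, ← Real.rpow_mul (by positivity)]
    norm_num
  have hc := AL2_rho_cont W
  calc ∫ a in (-5 : ℝ)..5, ‖rho W a‖ ^ (3 / 2 : ℝ)
      ≤ ∫ a in (-5 : ℝ)..5, ((3 / 4) / (W.card : ℝ) ^ (1 / 4 : ℝ) * ‖rho W a‖ ^ 2 +
          (1 / 4) * ((W.card : ℝ) ^ (1 / 4 : ℝ)) ^ 3) := by
        apply intervalIntegral.integral_mono (by norm_num)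
        · exact (AL2_f_cont W).intervalIntegrable _ _
        · apply Continuous.intervalIntegrable
          fun_prop
        · intro a
          have := AL2_pt ‖rho W a‖ (W.card : ℝ) (norm_nonneg _) hK
          show ‖rho W a‖ ^ (3 / 2 : ℝ) ≤ (3 / 4) / (W.card : ℝ) ^ (1 / 4 : ℝ) * ‖rho W a‖ ^ 2 +
          (1 / 4) * ((W.card : ℝ) ^ (1 / 4 : ℝ)) ^ 3
          calc _ ≤ _ := this
            _ = _ := by ring
    _ = (3 / 4) / (W.card : ℝ) ^ (1 / 4 : ℝ) * (∫ a in (-5 : ℝ)..5, ‖rho W a‖ ^ 2) +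
          10 * ((1 / 4) * ((W.card : ℝ) ^ (1 / 4 : ℝ)) ^ 3) := by
        rw [intervalIntegral.integral_add, intervalIntegral.integral_const_mul,
          intervalIntegral.integral_const]
        · norm_num
        · apply Continuous.intervalIntegrable
          fun_prop
        · exact intervalIntegrable_const
    _ ≤ (3 / 4) / (W.card : ℝ) ^ (1 / 4 : ℝ) * (Cq * (W.card : ℝ)) +
          10 * ((1 / 4) * ((W.card : ℝ) ^ (1 / 4 : ℝ)) ^ 3) := by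
        have h0 : (0 : ℝ) ≤ (3 / 4) / (W.card : ℝ) ^ (1 / 4 : ℝ) :=
          div_nonneg (by norm_num) ht.le
        have h1 := mul_le_mul_of_nonneg_left hq h0
        linarith
    _ = ((3 / 4) * Cq + 5 / 2) * ((W.card : ℝ) ^ (1 / 4 : ℝ)) ^ 3 := by
        set t := (W.card : ℝ) ^ (1 / 4 : ℝ)
        rw [ht4]
        field_simp
        ring

theorem AL2_F0 (f : ℝ → ℝ) (hf : ∀ a, 0 ≤ f a) (M : ℕ) :
    ‖∑ m ∈ MM M, cf f (0 * m)‖ ≤ 2 * M * ∫ a in (-5 : ℝ)..5, f a := by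
  have h0 : ∀ m : ℤ, cf f (0 * m) = ((∫ a in (-5 : ℝ)..5, f a : ℝ) : ℂ) := by
    intro m
    have h1 : ∀ a : ℝ, ((f a : ℝ) : ℂ) * ee (((0 * m : ℤ) : ℝ) * Real.exp a) =
        ((f a : ℝ) : ℂ) := by
      intro a
      rw [zero_mul, Int.cast_zero, zero_mul]
      unfold ee
      rw [mul_zero]
      simp
    unfold cf
    simp_rw [h1]
    exact intervalIntegral.integral_ofReal
  have hn : 0 ≤ ∫ a in (-5 : ℝ)..5, f a := by
    apply intervalIntegral.integral_nonneg (by norm_num)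
    intro a _
    exact hf a
  simp only [h0]
  rw [Finset.sum_const, AL2_MMcard, nsmul_eq_mul, norm_mul, Complex.norm_real, Real.norm_eq_abs,
    abs_of_nonneg hn, Complex.norm_natCast]
  push_cast
  exact le_refl _

theorem AL2 (h1 : AL1_stmt) (h2 : STR_stmt) (h3 : SPK_stmt) (h4 : DVS_stmt) (h5 : QZ0_stmt) :
    AL2_stmt := by
  intro ε hε
  obtain ⟨C1, hC1, h1⟩ := h1
  obtain ⟨Cs, hCs, h2⟩ := h2
  obtain ⟨Cd, hCd, h4⟩ := h4 ε hε
  obtain ⟨Cq, hCq, h5⟩ := h5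
  refine ⟨C1 * Cs * (4 * ((3 / 4) * Cq + 5 / 2) ^ 2 + Cd), by positivity, ?_⟩
  intro W X M hW hX hM
  have hX0 : 0 < X := by linarith
  have hM1 : (1 : ℝ) ≤ M := by exact_mod_cast hM
  have hMX : 1 ≤ (M : ℝ) * X := by nlinarith
  have hE : 1 ≤ ((M : ℝ) * X) ^ ε := Real.one_le_rpow hMX hε.le
  have hq3 : 0 ≤ q3 W := by
    unfold q3
    apply intervalIntegral.integral_nonneg (by norm_num)
    intro a _
    positivity
  rcases Nat.eq_zero_or_pos W.card with hw0 | hw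
  · have : W = ∅ := Finset.card_eq_zero.mp hw0
    subst this
    simp only [Finset.sum_empty, norm_zero]
    positivity
  set f : ℝ → ℝ := fun a => ‖rho W a‖ ^ (3 / 2 : ℝ) with hfdef
  have hfc : Continuous f := AL2_f_cont W
  have hf0 : ∀ a, 0 ≤ f a := fun a => by
    show 0 ≤ ‖rho W a‖ ^ (3 / 2 : ℝ)
    positivity
  obtain ⟨hsum, htsum⟩ := h3 f X M hfc hX
  have hK : (1 : ℝ) ≤ (W.card : ℝ) := by exact_mod_cast hw
  have hif := AL2_intf Cq W hw (h5 W hW)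
  have hif0 : 0 ≤ ∫ a in (-5 : ℝ)..5, f a := by
    apply intervalIntegral.integral_nonneg (by norm_num)
    intro a _
    exact hf0 a
  have hf2 : ∫ a in (-5 : ℝ)..5, f a ^ 2 = q3 W := by
    unfold q3
    congr 1
    funext a
    show (‖rho W a‖ ^ (3 / 2 : ℝ)) ^ 2 = ‖rho W a‖ ^ 3
    rw [← Real.rpow_natCast, ← Real.rpow_mul (norm_nonneg _), ← Real.rpow_natCast]
    norm_num
  have ht6 : (((W.card : ℝ) ^ (1 / 4 : ℝ)) ^ 3) ^ 2 = (W.card : ℝ) ^ (3 / 2 : ℝ) := by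
    rw [← pow_mul, ← Real.rpow_natCast, ← Real.rpow_mul (by positivity)]
    norm_num
  -- the term j = 0
  have hterm0 : ‖∑ m ∈ MM M, cf f (0 * m)‖ ^ 2 ≤
      4 * ((3 / 4) * Cq + 5 / 2) ^ 2 * ((M : ℝ) ^ 2 * (W.card : ℝ) ^ (3 / 2 : ℝ)) := by
    have h6 := AL2_F0 f hf0 M
    have h7 : ‖∑ m ∈ MM M, cf f (0 * m)‖ ≤ 2 * M * (((3 / 4) * Cq + 5 / 2) *
        ((W.card : ℝ) ^ (1 / 4 : ℝ)) ^ 3) :=
      h6.trans (mul_le_mul_of_nonneg_left hif (by positivity))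
    calc ‖∑ m ∈ MM M, cf f (0 * m)‖ ^ 2 ≤ (2 * M * (((3 / 4) * Cq + 5 / 2) *
        ((W.card : ℝ) ^ (1 / 4 : ℝ)) ^ 3)) ^ 2 := by
          apply pow_le_pow_left₀ (norm_nonneg _) h7
      _ = 4 * ((3 / 4) * Cq + 5 / 2) ^ 2 * ((M : ℝ) ^ 2 *
          (((W.card : ℝ) ^ (1 / 4 : ℝ)) ^ 3) ^ 2) := by ring
      _ = _ := by rw [ht6]
  -- the whole sum
  have hts : ∑' j : ℤ, Real.exp (-(|(j : ℝ)| / X)) * ‖∑ m ∈ MM M, cf f (j * m)‖ ^ 2 ≤
      4 * ((3 / 4) * Cq + 5 / 2) ^ 2 * ((M : ℝ) ^ 2 * (W.card : ℝ) ^ (3 / 2 : ℝ)) +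
      Cd * ((M : ℝ) * X) ^ ε * M * q3 W := by
    apply hsum.tsum_le_of_sum_le
    intro J
    have h8 : ∑ j ∈ J, Real.exp (-(|(j : ℝ)| / X)) * ‖∑ m ∈ MM M, cf f (j * m)‖ ^ 2 ≤
        ∑ j ∈ insert 0 (J.erase 0),
          Real.exp (-(|(j : ℝ)| / X)) * ‖∑ m ∈ MM M, cf f (j * m)‖ ^ 2 := by
      apply Finset.sum_le_sum_of_subset_of_nonneg
      · intro j hj
        by_cases h0 : j = 0
        · simp [h0]
        · simp [h0, hj]
      · intro j _ _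
        positivity
    refine h8.trans ?_
    rw [Finset.sum_insert (Finset.notMem_erase _ _)]
    have h9 := h4 f X M (J.erase 0) hfc hX hM (Finset.notMem_erase _ _)
    rw [hf2] at h9
    have h10 : Real.exp (-(|((0 : ℤ) : ℝ)| / X)) * ‖∑ m ∈ MM M, cf f (0 * m)‖ ^ 2 =
        ‖∑ m ∈ MM M, cf f (0 * m)‖ ^ 2 := by simp
    rw [h10]
    exact add_le_add hterm0 h9
  have hJ : ∑ m₁ ∈ MM M, ∑ m₂ ∈ MM M, ∑ m₃ ∈ MM M, JJ W X m₁ m₂ m₃ ≤ Cs / X *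
      ∑' j : ℤ, Real.exp (-(|(j : ℝ)| / X)) * ‖∑ m ∈ MM M, cf f (j * m)‖ ^ 2 := by
    rw [← htsum, Finset.mul_sum]
    apply Finset.sum_le_sum
    intro m₁ _
    rw [Finset.mul_sum]
    apply Finset.sum_le_sum
    intro m₂ _
    exact AL2_JJsum Cs h2 W X hX M m₁ m₂
  have hmain := h1 W X M hX0.le
  refine hmain.trans ?_
  calc C1 * X ^ 3 * ∑ m₁ ∈ MM M, ∑ m₂ ∈ MM M, ∑ m₃ ∈ MM M, JJ W X m₁ m₂ m₃
      ≤ C1 * X ^ 3 * (Cs / X * (4 * ((3 / 4) * Cq + 5 / 2) ^ 2 *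
        ((M : ℝ) ^ 2 * (W.card : ℝ) ^ (3 / 2 : ℝ)) + Cd * ((M : ℝ) * X) ^ ε * M * q3 W)) := by
        apply mul_le_mul_of_nonneg_left _ (by positivity)
        exact hJ.trans (mul_le_mul_of_nonneg_left hts (by positivity))
    _ = C1 * Cs * X ^ 2 * (4 * ((3 / 4) * Cq + 5 / 2) ^ 2 *
        ((M : ℝ) ^ 2 * (W.card : ℝ) ^ (3 / 2 : ℝ)) + Cd * ((M : ℝ) * X) ^ ε * M * q3 W) := by
        field_simp
    _ ≤ C1 * Cs * X ^ 2 * ((4 * ((3 / 4) * Cq + 5 / 2) ^ 2 + Cd) * ((M : ℝ) * X) ^ ε *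
        ((M : ℝ) ^ 2 * (W.card : ℝ) ^ (3 / 2 : ℝ) + M * q3 W)) := by
        apply mul_le_mul_of_nonneg_left _ (by positivity)
        set A := 4 * ((3 / 4) * Cq + 5 / 2) ^ 2 with hA
        set E := ((M : ℝ) * X) ^ ε with hEdef
        set P := (M : ℝ) ^ 2 * (W.card : ℝ) ^ (3 / 2 : ℝ) with hPdef
        have hA0 : 0 ≤ A := by positivity
        have hP0 : 0 ≤ P := by positivity
        have hQ0 : 0 ≤ (M : ℝ) * q3 W := by positivity
        have e1 : A * P ≤ A * E * P := by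
          have : A * P * 1 ≤ A * P * E := mul_le_mul_of_nonneg_left hE (by positivity)
          linarith
        have e2 : 0 ≤ A * E * (M * q3 W) := by positivity
        have e3 : 0 ≤ Cd * E * P := by positivity
        nlinarith
    _ = C1 * Cs * (4 * ((3 / 4) * Cq + 5 / 2) ^ 2 + Cd) * ((M : ℝ) * X) ^ ε * X ^ 2 *
        ((M : ℝ) ^ 2 * (W.card : ℝ) ^ (3 / 2 : ℝ) + M * q3 W) := by ring

end Pool.Agent.ZD
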