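import Pool.Agent.helper7.ZD.Spec

set_option autoImplicit false

/-! Row zd:NLQ (MP_baa4d7_al) -/

namespace Pool.Agent.ND.NY

open Pool.Agent.helper58.DC Pool.Agent.DI Pool.Agent.GR Pool.Agent.OB Pool.Agent.DR Pool.Agent.FI Pool.Agent.FI3 Pool.Agent.FI4 Pool.Agent.FI4I Pool.Agent.LE Pool.Agent.L5 Pool.Agent.NAB
open Pool.Agent.ZB (Pm Om KZ EQ BQ lQ MZc BDK)

theorem NLQ (hCNTL : CNTL_stmt) : NLQ_stmt := by
  intro p M hS G _ _ L Z hZp hZc hZL θ hθ ψ hψ hSB Q y hQ c hc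
  have hle : L ⊓ cz Z = cz Z := inf_eq_right.2 hZL
  obtain ⟨l, hl, hlr⟩ := hCNTL p M hS G L Z hZp (hZc.trans hZL) θ (by rw [hle]; exact hθ) ψ hSB Q y hQ
  have h1 : l⁻¹ * c * l ∈ cz Z := by
    rw [Subgroup.mem_centralizer_iff]
    intro r hr
    have h2 := (Subgroup.mem_centralizer_iff.1 hc) (l * r * l⁻¹) (hlr r hr)
    calc r * (l⁻¹ * c * l) = l⁻¹ * (l * r * l⁻¹ * c) * l := by group
      _ = l⁻¹ * (c * (l * r * l⁻¹)) * l := by rw [h2]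
      _ = l⁻¹ * c * l * r := by group
  have h3 := L.mul_mem (L.mul_mem hl (hZL h1)) (L.inv_mem hl)
  have h4 : l * (l⁻¹ * c * l) * l⁻¹ = c := by group
  rwa [h4] at h3

end Pool.Agent.ND.NY
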