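import Pool.Agent.helper7.ZD.Spec

set_option autoImplicit false

/-! Row zd:NUD (MP_baa4d7_al) -/

namespace Pool.Agent.ND.NY

open Pool.Agent.helper58.DC Pool.Agent.DI Pool.Agent.GR Pool.Agent.OB Pool.Agent.DR Pool.Agent.FI Pool.Agent.FI3 Pool.Agent.FI4 Pool.Agent.FI4I Pool.Agent.LE Pool.Agent.L5 Pool.Agent.NAB
open Pool.Agent.ZB (Pm Om KZ EQ BQ lQ MZc BDK)

theorem NUD (hNUC : NUC_stmt) (hDUN : DUN_stmt) (hZUB : Pool.Agent.ZB.ZUB_stmt) (hYE1 : YE1_stmt) : NUD_stmt := by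
  intro p e m M hS G _ _ L ψ hψ z x hU
  obtain ⟨D₀, y₀, hD₀, hK₀⟩ := hU.df
  have h1 : ∀ (D : Subgroup G) (y : G), DefL p M L ψ D y → KY p e m D ∧
      ∃ l ∈ L, l * z * l⁻¹ ∈ D ∧ ∀ d ∈ D, l * z * l⁻¹ * d = d * (l * z * l⁻¹) := by
    intro D y hD
    obtain ⟨-, h3⟩ := hNUC p M hS G L ψ hψ D y hD z x hU.pe hU.re hU.co (L.mul_mem hU.zm hU.xm) hU.ne
    obtain ⟨h, hh, he⟩ := (hDUN p M hS G L ψ hψ D₀ y₀ hD₀).1 D y hD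
    have h4 : KY p e m (cjS h D₀) := ((hYE1 p hS.pr m G D₀).1 e hK₀).2.2.2.2.1 h
    have h5 : cjS h D₀ = D := he
    rw [h5] at h4
    exact ⟨h4, h3⟩
  refine ⟨h1, ?_⟩
  obtain ⟨-, l, hl, hz, hcom⟩ := h1 D₀ y₀ hD₀
  have h4 := (hZUB p M hS G L ψ D₀ y₀ hD₀).2.2 hψ l⁻¹ (L.inv_mem hl)
  refine ⟨_, _, h4, ?_, ?_, (h1 _ _ h4).1⟩
  · rw [mem_cjS, inv_inv]
    exact hz
  · intro d hd
    rw [mem_cjS, inv_inv] at hd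
    have h5 := hcom _ hd
    calc z * d = l⁻¹ * (l * z * l⁻¹ * (l * d * l⁻¹)) * l := by group
      _ = l⁻¹ * (l * d * l⁻¹ * (l * z * l⁻¹)) * l := by rw [h5]
      _ = d * z := by group

end Pool.Agent.ND.NY
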