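import Pool.Agent.helper7.ZD.Spec

set_option autoImplicit false

/-! Row zd:NUH (MP_baa4d7_al) -/

namespace Pool.Agent.ND.NY

open Pool.Agent.helper58.DC Pool.Agent.DI Pool.Agent.GR Pool.Agent.OB Pool.Agent.DR Pool.Agent.FI Pool.Agent.FI3 Pool.Agent.FI4 Pool.Agent.FI4I Pool.Agent.LE Pool.Agent.L5 Pool.Agent.NAB
open Pool.Agent.ZB (Pm Om KZ EQ BQ lQ MZc BDK)

theorem NUH_cj {G : Type} [Group G] (l : G) (Q : Subgroup G) : cjS l⁻¹ (cjS l Q) = Q := by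
  ext x
  rw [mem_cjS, mem_cjS, inv_inv]
  have h : l⁻¹ * (l * x * l⁻¹) * l = x := by group
  rw [h]

theorem NUH (hNUH : Pool.Agent.NAB.NUH_stmt) (hZHE : Pool.Agent.ZB.ZHE_stmt) (hDEX : DEX_stmt) (hYE1 : YE1_stmt) : NUH_stmt := by
  intro p e m M hS G _ _ L K hKL η hη ψ hψ z x hSB hU hloc
  obtain ⟨m', hm'⟩ : ∃ m' : ℕ, pp p (Cz L (z * x)) ≤ p ^ (e + m') :=
    ⟨pp p (Cz L (z * x)), (Nat.lt_pow_self hS.pr.one_lt).le.trans (Nat.pow_le_pow_right hS.pr.pos (Nat.le_add_left _ _))⟩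
  obtain ⟨l, hl, hU'⟩ := hNUH p e m' M hS G L K hKL η hη ψ z x hSB
    ⟨hU.pe, hU.re, hU.co, hU.zm, hU.xm, hU.od, hU.ne, hm'⟩
  refine ⟨l, hl, ⟨hU'.pe, hU'.re, hU'.co, hU'.zm, hU'.xm, hU'.od, hU'.ne, ?_⟩⟩
  obtain ⟨D, x₀, hD, hKD⟩ := hU.df
  obtain ⟨Q, y, hQ, -⟩ := hDEX p M hS G K η hη
  obtain ⟨k, hk, hk1, hk2⟩ := hZHE p M hS G L K hKL ψ hψ D x₀ hD η hη hSB Q y hQ (hloc Q y hQ)
  have h1 : KY p e m (cjS k Q) := ((hYE1 p hS.pr m G D).1 e hKD).2.2.2.1 (cjS k Q) hk1 hk2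
  have h2 : KY p e m (cjS k⁻¹ (cjS k Q)) := ((hYE1 p hS.pr m G (cjS k Q)).1 e h1).2.2.2.2.1 k⁻¹
  rw [NUH_cj] at h2
  exact ⟨Q, y, hQ, h2⟩

end Pool.Agent.ND.NY
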