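import Pool.Agent.helper7.ZD.Spec
import Pool.Agent.helper79.ZB.ZBC
import Pool.Agent.helper78.ZB.ZTC

set_option autoImplicit false

/-! Row zd:TDC (MP_baa4d7_al) -/

namespace Pool.Agent.ND.NY

open Pool.Agent.helper58.DC Pool.Agent.DI Pool.Agent.GR Pool.Agent.OB Pool.Agent.DR Pool.Agent.FI Pool.Agent.FI3 Pool.Agent.FI4 Pool.Agent.FI4I Pool.Agent.LE Pool.Agent.L5 Pool.Agent.NAB
open Pool.Agent.ZB (Pm Om KZ EQ BQ lQ MZc BDK)

theorem TDC_conj (hZUB : Pool.Agent.ZB.ZUB_stmt) (hZE2 : Pool.Agent.ZB.ZE2_stmt) (hCJG : CJG_stmt) {p : ℕ} {κ : Pm}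
    {M : Ideal (integralClosure ℤ ℂ)} (hS : Setup p M) {G : Type} [Group G] [Finite G] {L K E : Subgroup G} {ψ : G → ℂ}
    {l : G} (hl : l ∈ L) (W : Subgroup G → (G → ℂ) → ℂ) (hW : ∀ l ∈ L, ∀ K η, W (cjS l K) (cjF l η) = W K η) :
    ∑ᶠ η ∈ BQ p κ M L (cjS l K) (cjS l E) ψ, W (cjS l K) η = ∑ᶠ η ∈ BQ p κ M L K E ψ, W K η := by
  symm
  refine finsum_mem_eq_of_bijOn (cjF l) ⟨?_, ?_, ?_⟩ ?_
  · intro η hη
    exact Pool.Agent.ZB.ZBC_map hZUB hZE2 hCJG hS hS.pr hl hη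
  · intro η _ η' _ he
    have h1 := congrArg (cjF l⁻¹) he
    rw [Pool.Agent.ZB.ZBC_cjF, Pool.Agent.ZB.ZBC_cjF] at h1
    exact h1
  · intro η hη
    refine ⟨cjF l⁻¹ η, ?_, Pool.Agent.ZB.ZBC_cjF' l η⟩
    have h1 := Pool.Agent.ZB.ZBC_map hZUB hZE2 hCJG hS hS.pr (L.inv_mem hl) hη
    rw [Pool.Agent.ZB.ZBC_cjS, Pool.Agent.ZB.ZBC_cjS] at h1
    exact h1
  · intro η _
    exact (hW l hl K η).symm

theorem TDC (hZUH : Pool.Agent.ZB.ZUH_stmt) (hZE1 : Pool.Agent.ZB.ZE1_stmt) (hZUB : Pool.Agent.ZB.ZUB_stmt) (hZE2 : Pool.Agent.ZB.ZE2_stmt) (hCJG : CJG_stmt) : TDC_stmt := by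
  classical
  intro p κ M hS G _ _ L ψ hψ D x hD hK W hW
  rw [Pool.Agent.ZB.ZTC_card L (EQ p κ.s D)]
  let _ : Fintype (Subgroup G) := Fintype.ofFinite _
  rw [finsum_eq_sum_of_fintype, finsum_eq_sum_of_fintype, Finset.sum_mul]
  refine Finset.sum_congr rfl fun E' _ => ?_
  by_cases h : ∃ l ∈ L, E' = cjS l (EQ p κ.s D)
  · obtain ⟨l, hl, rfl⟩ := h
    rw [Pool.Agent.ZB.ZTC_fib _ _ _ hl, Pool.Agent.ZB.ZTC_nz _ _ _ hl, Pool.Agent.ZB.ZTC_cd,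
      TDC_conj hZUB hZE2 hCJG hS hl W hW]
  · have h1 : {l : G | l ∈ L ∧ cjS l (EQ p κ.s D) = E'}.ncard = 0 := by
      have : {l : G | l ∈ L ∧ cjS l (EQ p κ.s D) = E'} = ∅ := by
        ext l
        simp only [Set.mem_empty_iff_false, iff_false]
        rintro ⟨hl, he⟩
        exact h ⟨l, hl, he.symm⟩
      rw [this, Set.ncard_empty]
    have h2 : BQ p κ M L (L ⊓ nz E') E' ψ = ∅ := by
      ext η
      simp only [Set.mem_empty_iff_false, iff_false]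
      rintro ⟨hη, hSB, Q, y, hQ, hKQ, hE⟩
      have e1 := (hZE1 p hS.pr κ G Q hKQ).2.2.2.2
      have e2 : L ⊓ cz Q ≤ L ⊓ nz E' := by
        rw [← hE]
        exact inf_le_inf_left L (e1.1.trans e1.2.1)
      obtain ⟨-, l, hl, -, he⟩ := hZUH p κ M hS G L (L ⊓ nz E') inf_le_left ψ hψ D x hD hK η hη hSB Q y hQ e2
      apply h
      refine ⟨l⁻¹, L.inv_mem hl, ?_⟩
      rw [he, hE]
      ext k
      rw [mem_cjS, mem_cjS, inv_inv]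
      have e : l⁻¹ * (l * k * l⁻¹) * l = k := by group
      rw [e]
    rw [h1, h2, finsum_mem_empty]
    simp

end Pool.Agent.ND.NY
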